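import Mathlib
import Pool.Agent.W218.SI.LpMain

/-!
Small primes in arithmetic progressions, for every modulus `m` and a positive proportion of the
reduced residue classes `r` modulo `m` in every interval of length at least `m^(1-δ)`: the terms
`m n + r` are restricted to `n` in an arbitrary dense subset of an arbitrary interval `(y, y + x]` of
length at least `c (φ(m) / m) log m` with `y + x ≤ m^δ`. In particular (`y = 0`) the least prime
`p(r, m)` is at most `C φ(m) log m` for a positive proportion of the reduced classes `r` in each such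
interval of classes.
-/

set_option autoImplicit false

namespace Pool.Agent.Results.MP_e1dc24_nt.ShortIntervalsOfClasses

open Finset Pool.Agent.W218.SI Pool.Agent.W218.PF Pool.Agent.W218.HF Pool.Agent.W218.LF

/-- the number of `n ∈ T` with `m n + r` prime -/
noncomputable def P (m r : ℕ) (T : Finset ℕ) : ℕ := (T.filter (fun n => (m * n + r).Prime)).card

lemma Nq_eq (m B : ℕ) (T : Finset ℕ) (β : ℕ) : Nq m B T β = P m (B + β) T := by
  classical
  unfold Nq P
  rw [card_filter]
  push_cast
  apply sum_congr rfl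
  intro n _
  have e : (((m * n + B : ℕ) : ℤ) + (β : ℤ)).toNat = m * n + (B + β) := by omega
  unfold pr
  push_cast at e
  rw [e]

/-- **Small primes in the residue classes of a short interval, for every modulus.** There is
`δ ∈ (0, 1)` such that for all `c, ρ > 0` there are `κ > 0` and `m₀` with the following property. Let
`m ≥ m₀` be any modulus, `(B, B + H]` any interval of residue classes with `m^(1-δ) ≤ H`,
`B + H ≤ m`, let `(y, y + x]` be any interval with `x ≥ c (φ(m) / m) log m` and `y + x ≤ m^δ`, and let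
`T` be any set of at least `ρ x` integers of it. Then at least `κ (φ(m) / m) H` of the classes
`r ∈ (B, B + H]` are coprime to `m` and satisfy `κ E ≤ P ≤ κ⁻¹ E`, where `P` is the number of `n ∈ T`
with `m n + r` prime and `E = (m / φ(m)) |T| / log m`. -/
theorem result : ∃ δ : ℝ, 0 < δ ∧ δ < 1 ∧ ∀ c ρ : ℝ, 0 < c → 0 < ρ →
    ∃ κ : ℝ, 0 < κ ∧ ∃ m₀ : ℕ, ∀ m : ℕ, m₀ ≤ m → ∀ B H : ℕ, (m : ℝ) ^ (1 - δ) ≤ H → B + H ≤ m →
    ∀ y x : ℕ, c * (Nat.totient m / m) * Real.log m ≤ x → ((y + x : ℕ) : ℝ) ≤ (m : ℝ) ^ δ →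
    ∀ T ⊆ Ioc y (y + x), ρ * x ≤ (T.card : ℝ) →
    κ * (Nat.totient m / m) * H ≤ (((Ioc B (B + H)).filter (fun r => m.Coprime r ∧
      κ * ((m / Nat.totient m) * (T.card / Real.log m)) ≤ P m r T ∧
      κ * P m r T ≤ (m / Nat.totient m) * (T.card / Real.log m))).card : ℝ) := by
  classical
  obtain ⟨δ, hδ, hδ1, h⟩ := lpMain
  refine ⟨δ, hδ, hδ1, fun c ρ hc hρ => ?_⟩
  obtain ⟨κ, hκ, m₀, hm₀, h1⟩ := h c ρ hc hρ
  refine ⟨κ, hκ, m₀, fun m hm B H hH hBH y x hx hxm T hT hTc => ?_⟩
  have hm3 : 3 ≤ m := hm₀.trans hm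
  have hmpos : 0 < m := by omega
  have hm0 : (0 : ℝ) < m := by exact_mod_cast hmpos
  have hφ0 : (0 : ℝ) < Nat.totient m := by exact_mod_cast Nat.totient_pos.2 hmpos
  have hL : 0 < Real.log m := Real.log_pos (by exact_mod_cast (by omega : 1 < m))
  have hx' : c * Real.log m / Pool.Agent.Erdos456.GG m ≤ x := by
    refine le_trans (le_of_eq ?_) hx
    unfold Pool.Agent.Erdos456.GG
    field_simp
  have h2 := h1 m hm B H hH hBH y x hx' hxm T hT hTc
  have hx0 : (0 : ℝ) < x := lt_of_lt_of_le (by positivity) hx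
  have hT0 : (0 : ℝ) < T.card := lt_of_lt_of_le (by positivity) hTc
  have hT1 : ∀ n ∈ T, 1 ≤ n := fun n hn => by have := mem_Ioc.1 (hT hn); omega
  have e1 : κ * (Nat.totient m / m) * H = κ * (H / Pool.Agent.Erdos456.GG m) := by
    unfold Pool.Agent.Erdos456.GG
    field_simp
  rw [e1]
  refine h2.trans ?_
  have h3 : ((Ioc 0 H).filter (fun β =>
      κ * (Pool.Agent.Erdos456.GG m * T.card / Real.log m) ≤ Nq m B T β ∧
      κ * Nq m B T β ≤ Pool.Agent.Erdos456.GG m * T.card / Real.log m)).card ≤
      ((Ioc B (B + H)).filter (fun r => m.Coprime r ∧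
      κ * ((m / Nat.totient m) * (T.card / Real.log m)) ≤ P m r T ∧
      κ * P m r T ≤ (m / Nat.totient m) * (T.card / Real.log m))).card := by
    apply card_le_card_of_injOn (fun β => B + β)
    · intro β hβ
      have hβ' := mem_filter.1 (mem_coe.1 hβ)
      have h5 := mem_Ioc.1 hβ'.1
      have h6 := hβ'.2
      apply mem_coe.2
      rw [mem_filter, mem_Ioc]
      have hE : (m : ℝ) / Nat.totient m * (T.card / Real.log m) =
          Pool.Agent.Erdos456.GG m * T.card / Real.log m := by
        unfold Pool.Agent.Erdos456.GG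
        ring
      have hE0 : 0 < (m : ℝ) / Nat.totient m * (T.card / Real.log m) := by positivity
      refine ⟨⟨?_, ?_⟩, ?_, ?_, ?_⟩
      · show B < B + β
        omega
      · show B + β ≤ B + H
        omega
      · apply Nq_pos_coprime hmpos dvd_rfl hT1 h5.1 (T := T)
        intro h0
        rw [h0, ← hE] at h6
        have := mul_pos hκ hE0
        linarith [h6.1]
      · rw [hE, ← Nq_eq]
        exact h6.1
      · rw [hE, ← Nq_eq]
        exact h6.2
    · intro β _ β' _ h
      simp only at h
      omega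
  exact_mod_cast h3

end Pool.Agent.Results.MP_e1dc24_nt.ShortIntervalsOfClasses
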